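import Pool.Agent.H.MP_ae2f9f_co.A

namespace Pool.Agent.Results.MP_ae2f9f_co.Full

open Finset Pool.Agent.H.MP_ae2f9f_co

/-- cells sharing a side -/
def adj (p q : ℤ × ℤ) : Prop := |p.1 - q.1| + |p.2 - q.2| = 1

/-- `P` is a nonempty edge-connected set of cells -/
def IsPoly (P : Finset (ℤ × ℤ)) : Prop :=
  P.Nonempty ∧ ∀ p ∈ P, ∀ q ∈ P, Relation.ReflTransGen (fun a b => b ∈ P ∧ adj a b) p q

/-- no nonempty row and no nonempty column is an interval -/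
def PropS (P : Finset (ℤ × ℤ)) : Prop :=
  ∀ p ∈ P, ¬ Set.OrdConnected {a | (a, p.2) ∈ P} ∧ ¬ Set.OrdConnected {b | (p.1, b) ∈ P}

theorem gap {s : Set ℤ} : ¬ s.OrdConnected ↔ ∃ a c b, a < c ∧ c < b ∧ a ∈ s ∧ c ∉ s ∧ b ∈ s := by
  rw [Set.ordConnected_iff]
  push Not
  constructor
  · rintro ⟨a, ha, b, hb, _, h⟩
    obtain ⟨c, ⟨h1, h2⟩, hc⟩ := Set.not_subset.1 h
    exact ⟨a, c, b, h1.lt_of_ne (by rintro rfl; exact hc ha),
      h2.lt_of_ne (by rintro rfl; exact hc hb), ha, hc, hb⟩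
  · rintro ⟨a, c, b, h1, h2, ha, hc, hb⟩
    exact ⟨a, ha, b, hb, by omega, fun h => hc (h ⟨h1.le, h2.le⟩)⟩

theorem adj_iff (p q : ℤ × ℤ) : adj p q ↔ (q.2 = p.2 ∧ (q.1 = p.1 + 1 ∨ q.1 = p.1 - 1)) ∨
    (q.1 = p.1 ∧ (q.2 = p.2 + 1 ∨ q.2 = p.2 - 1)) := by
  unfold adj
  rcases abs_cases (p.1 - q.1) with h | h <;> rcases abs_cases (p.2 - q.2) with g | g <;> omega

variable {P : Finset (ℤ × ℤ)}

theorem closed (h : IsPoly P) (A : ℤ × ℤ → Prop)
    (hA : ∀ a ∈ P, ∀ b ∈ P, adj a b → A a → A b) {p q} (hp : p ∈ P) (hq : q ∈ P) (ap : A p) :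
    A q := by
  have : ∀ r, Relation.ReflTransGen (fun a b => b ∈ P ∧ adj a b) p r → r ∈ P ∧ A r := by
    intro r hr
    induction hr with
    | refl => exact ⟨hp, ap⟩
    | tail _ g ih => exact ⟨g.1, hA _ ih.1 _ g.1 g.2 ih.2⟩
  exact (this q (h.2 p hp q hq)).2

theorem swap (h : IsPoly P) (s : PropS P) :
    IsPoly (P.image Prod.swap) ∧ PropS (P.image Prod.swap) := by
  have m : ∀ p : ℤ × ℤ, p ∈ P.image Prod.swap ↔ p.swap ∈ P := fun p => by
    simp only [mem_image]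
    exact ⟨by rintro ⟨q, h, rfl⟩; exact h, fun h => ⟨_, h, rfl⟩⟩
  refine ⟨⟨h.1.image _, fun p hp q hq => ?_⟩, fun p hp => ?_⟩
  · exact (h.2 _ ((m p).1 hp) _ ((m q).1 hq)).lift Prod.swap fun a b g =>
      ⟨(m _).2 g.1, (add_comm _ _).trans g.2⟩
  · simp only [m]
    exact (s _ ((m p).1 hp)).symm

/-- all columns lie in an interval whose length is the number of columns -/
theorem box (h : IsPoly P) : ∃ x : ℤ, P.image Prod.fst = Ico x (x + (P.image Prod.fst).card) := by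
  have ne := h.1.image Prod.fst
  obtain ⟨p, hp, e1⟩ := mem_image.1 (min'_mem _ ne)
  obtain ⟨q, hq, e2⟩ := mem_image.1 (max'_mem _ ne)
  have : P.image Prod.fst = Icc p.1 q.1 := by
    ext c
    rw [mem_Icc]
    refine ⟨fun g => ⟨e1 ▸ min'_le _ _ g, e2 ▸ le_max' _ _ g⟩, fun ⟨h1, h2⟩ => ?_⟩
    by_contra n
    have n' : ∀ a ∈ P, a.1 ≠ c := fun a ha e => n (mem_image.2 ⟨a, ha, e⟩)
    have := closed h (fun a => a.1 < c) (fun a _ b hb g f => by
      have := n' b hb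
      rw [adj_iff] at g
      omega) hp hq (h1.lt_of_ne (n' p hp))
    omega
  have le : p.1 ≤ q.1 := e1 ▸ e2 ▸ min'_le_max' _ _
  refine ⟨p.1, ?_⟩
  rw [this, Int.card_Icc]
  ext c
  simp only [mem_Icc, mem_Ico]
  omega

theorem wide (h : IsPoly P) (s : PropS P) : 5 ≤ (P.image Prod.fst).card := by
  obtain ⟨x, hx⟩ := box h
  by_contra! c
  have m : ∀ p ∈ P, x ≤ p.1 ∧ p.1 < x + 4 := fun p hp => by
    have := mem_image_of_mem Prod.fst hp
    rw [hx, mem_Ico] at this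
    omega
  obtain ⟨p, hp⟩ := h.1
  obtain ⟨a, d, b, h1, h2, ha, _, hb⟩ := gap.1 (s p hp).1
  have := m _ ha
  have := m _ hb
  have := closed h (fun q => q.1 ≤ x + 1) (fun u hu v hv g f => by
    obtain ⟨a, d, b, h1, h2, ha, hd, hb⟩ := gap.1 (s u hu).1
    have := m _ ha
    have := m _ hb
    have n1 : u.1 ≠ d := fun e => hd (e ▸ hu)
    have n2 : v.2 = u.2 → v.1 ≠ d := fun e e' => hd (e ▸ e' ▸ hv)
    rw [adj_iff] at g
    simp only at *
    omega) ha hb (by simp only at *; omega)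
  simp only at *
  omega

theorem ends (s : PropS P) :
    (P.filter fun p => (p.1, p.2 + 1) ∈ P).card + 2 * (P.image Prod.fst).card ≤ P.card := by
  rw [← card_filter_add_card_filter_not (s := P) fun p => (p.1, p.2 + 1) ∈ P, add_le_add_iff_left]
  refine mul_card_image_le_card_of_maps_to (f := Prod.fst) (t := P.image Prod.fst)
    (s := P.filter fun p => ¬ (p.1, p.2 + 1) ∈ P) (fun p hp => ?_) 2 fun x hx => ?_
  · exact mem_image_of_mem _ (mem_filter.1 hp).1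
  obtain ⟨p, hp, rfl⟩ := mem_image.1 hx
  obtain ⟨a, c, b, h1, h2, ha, hc, hb⟩ := gap.1 (s p hp).2
  obtain ⟨u, hu, mu⟩ := exists_max_image (P.filter fun q => q.1 = p.1 ∧ q.2 < c) Prod.snd
    ⟨(p.1, a), mem_filter.2 ⟨ha, rfl, h1⟩⟩
  obtain ⟨v, hv, mv⟩ := exists_max_image (P.filter fun q => q.1 = p.1) Prod.snd
    ⟨(p.1, a), mem_filter.2 ⟨ha, rfl⟩⟩
  simp only [mem_filter] at hu hv mu mv
  refine one_lt_card.2 ⟨u, ?_, v, ?_, ?_⟩
  · refine mem_filter.2 ⟨mem_filter.2 ⟨hu.1, fun g => ?_⟩, hu.2.1⟩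
    have n : u.2 + 1 ≠ c := fun e => hc (e ▸ hu.2.1 ▸ g)
    have := mu _ ⟨g, hu.2.1, by omega⟩
    omega
  · refine mem_filter.2 ⟨mem_filter.2 ⟨hv.1, fun g => ?_⟩, hv.2⟩
    have := mv _ ⟨g, hv.2⟩
    omega
  · rintro rfl
    have := mv (p.1, b) ⟨hb, rfl⟩
    omega

theorem edges (h : IsPoly P) : P.card ≤ (P.filter fun p => (p.1, p.2 + 1) ∈ P).card +
    (P.filter fun p => (p.1 + 1, p.2) ∈ P).card + 1 := by
  let G : SimpleGraph P :=
    { Adj := fun a b => adj a b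
      symm := ⟨fun a b g => by rw [adj_iff] at *; omega⟩
      loopless := ⟨fun a g => by rw [adj_iff] at g; omega⟩ }
  have : Nonempty P := h.1.coe_sort
  have c : G.Connected := ⟨fun p q => by
    have := closed h (fun r => ∀ hr : r ∈ P, G.Reachable p ⟨r, hr⟩)
      (fun a ha b hb g f _ => (f ha).trans (SimpleGraph.Adj.reachable g)) p.2 q.2
      fun _ => .refl _
    exact this q.2⟩
  have e := c.card_vert_le_card_edgeSet_add_one
  rw [Nat.card_eq_finsetCard, Nat.card_coe_set_eq,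
    ← Set.ncard_image_of_injective _ (Sym2.map.injective Subtype.val_injective)] at e
  refine e.trans (add_le_add_left ?_ 1)
  refine le_trans ?_ ((card_union_le _ _).trans (add_le_add
    (card_image_le (f := fun p => s(p, (p.1, p.2 + 1))))
    (card_image_le (f := fun p => s(p, (p.1 + 1, p.2))))))
  rw [← Set.ncard_coe_finset]
  refine Set.ncard_le_ncard ?_
  rintro _ ⟨z, hz, rfl⟩
  induction z using Sym2.ind with
  | h a b =>
  obtain ⟨⟨a1, a2⟩, ha⟩ := a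
  obtain ⟨⟨b1, b2⟩, hb⟩ := b
  have := (adj_iff _ _).1 hz
  simp only [coe_union, coe_image, coe_filter, Set.mem_union, Set.mem_image, Set.mem_ofPred_eq,
    Sym2.map_mk] at this ⊢
  rcases this with ⟨rfl, rfl | rfl⟩ | ⟨rfl, rfl | rfl⟩
  · exact Or.inr ⟨_, ⟨ha, hb⟩, rfl⟩
  · exact Or.inr ⟨_, ⟨hb, by simpa using ha⟩, by simp⟩
  · exact Or.inl ⟨_, ⟨ha, hb⟩, rfl⟩
  · exact Or.inl ⟨_, ⟨hb, by simpa using ha⟩, by simp⟩

theorem five (h : IsPoly P) (s : PropS P) (x y : ℤ) (hx : P.image Prod.fst = Ico x (x + 5))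
    (hy : P.image Prod.snd = Ico y (y + 5)) : False := by
  have m : ∀ p ∈ P, ∃ i < 5, ∃ j < 5, p = (x + (i : ℕ), y + (j : ℕ)) := fun p hp => by
    have h1 := mem_image_of_mem Prod.fst hp
    have h2 := mem_image_of_mem Prod.snd hp
    rw [hx, mem_Ico] at h1
    rw [hy, mem_Ico] at h2
    exact ⟨(p.1 - x).toNat, by omega, (p.2 - y).toNat, by omega, Prod.ext (by simp; omega)
      (by simp; omega)⟩
  obtain ⟨r, lt, tb⟩ : ∃ r : ℕ → ℕ, (∀ j, r j < 32) ∧
      ∀ j i, (r j).testBit i = true ↔ i < 5 ∧ (x + i, y + j) ∈ P :=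
    ⟨fun j => Nat.ofBits fun i : Fin 5 => decide ((x + (i : ℕ), y + j) ∈ P),
      fun _ => Nat.ofBits_lt_two_pow _, fun j i => by simp [Nat.testBit_ofBits]⟩
  have hr : ∀ j < 5, r j ∈ pat := fun j hj => by
    obtain ⟨p, hp, e⟩ := mem_image.1 (show y + j ∈ P.image Prod.snd by rw [hy, mem_Ico]; omega)
    obtain ⟨a, c, b, h1, h2, ha, hc, hb⟩ := gap.1 (s p hp).1
    obtain ⟨a', a1, _, _, e1⟩ := m _ ha
    obtain ⟨b', b1, _, _, e2⟩ := m _ hb
    obtain ⟨rfl, -⟩ := Prod.mk.inj e1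
    obtain ⟨rfl, -⟩ := Prod.mk.inj e2
    obtain ⟨c', rfl⟩ : ∃ c' : ℕ, c = x + c' := ⟨(c - x).toNat, by omega⟩
    rw [e] at ha hb hc
    exact key ⟨r j, lt j⟩ ⟨a', a1⟩ ⟨c', by omega⟩ ⟨b', b1⟩
      ⟨by simp only [Fin.mk_lt_mk]; omega, by simp only [Fin.mk_lt_mk]; omega, (tb _ _).2 ⟨a1, ha⟩,
      fun g => hc ((tb _ _).1 g).2, (tb _ _).2 ⟨b1, hb⟩⟩
  have hc : ∀ i < 5, ∃ b < 5, ∃ c < b, ∃ a < c, (r a).testBit i = true ∧ (r c).testBit i = false ∧
      (r b).testBit i = true := fun i hi => by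
    obtain ⟨p, hp, e⟩ := mem_image.1 (show x + i ∈ P.image Prod.fst by rw [hx, mem_Ico]; omega)
    obtain ⟨a, c, b, h1, h2, ha, hc, hb⟩ := gap.1 (s p hp).2
    obtain ⟨_, _, a', a1, e1⟩ := m _ ha
    obtain ⟨_, _, b', b1, e2⟩ := m _ hb
    obtain ⟨-, rfl⟩ := Prod.mk.inj e1
    obtain ⟨-, rfl⟩ := Prod.mk.inj e2
    obtain ⟨c', rfl⟩ : ∃ c' : ℕ, c = y + c' := ⟨(c - y).toNat, by omega⟩
    rw [e] at ha hb hc
    exact ⟨b', b1, c', by omega, a', by omega, (tb _ _).2 ⟨hi, ha⟩,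
      Bool.eq_false_iff.2 fun g => hc ((tb _ _).1 g).2, (tb _ _).2 ⟨hi, hb⟩⟩
  have hi : ∀ j i, 5 ≤ i → (r j).testBit i = false := fun j i g =>
    Bool.eq_false_iff.2 fun f => absurd ((tb _ _).1 f).1 (by omega)
  have t31 : ∀ i, Nat.testBit 31 i = decide (i < 5) := Nat.testBit_two_pow_sub_one 5
  have k := chk
  simp only [List.all_eq_true, Bool.or_eq_true, bne_iff_ne] at k
  have k := ((k _ (hr 0 (by omega)) _ (hr 1 (by omega)) _ (hr 2 (by omega)) _
    (hr 3 (by omega))).resolve_left (not_not.2 ?_) _ (hr 4 (by omega))).resolve_left (not_not.2 ?_)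
  rotate_left
  iterate 2
    refine Nat.eq_of_testBit_eq fun i => ?_
    simp only [nt, Nat.testBit_or, Nat.testBit_and, Nat.testBit_xor, t31]
    by_cases g : i < 5
    · obtain ⟨b, b1, c, c1, a, a1, h1, h2, h3⟩ := hc i g
      interval_cases b <;> interval_cases c <;> interval_cases a <;> simp [*]
    · simp [hi _ i (by omega), g]
  have f : ∀ a k, force a k = k a := fun a k => by cases a <;> rfl
  rw [f] at k
  set B := r 0 ||| r 1 <<< 6 ||| r 2 <<< 12 ||| r 3 <<< 18 ||| r 4 <<< 24 with hB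
  have b1 : ∀ i < 5, ∀ j < 5, (x + (i : ℕ), y + (j : ℕ)) ∈ P → B.testBit (6 * j + i) = true := by
    intro i i5 j j5 g
    have := (tb j i).2 ⟨i5, g⟩
    interval_cases j <;> simp [hB, Nat.testBit_shiftLeft, this]
  have b2 : ∀ n, B.testBit n = true →
      ∃ i < 5, ∃ j < 5, (x + (i : ℕ), y + (j : ℕ)) ∈ P ∧ n = 6 * j + i := by
    intro n g
    simp only [hB, Nat.testBit_or, Nat.testBit_shiftLeft, Bool.or_eq_true, Bool.and_eq_true,
      decide_eq_true_eq, tb] at g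
    rcases g with (((g | g) | g) | g) | g
    · exact ⟨_, g.1, 0, by omega, g.2, by omega⟩
    · exact ⟨_, g.2.1, 1, by omega, g.2.2, by omega⟩
    · exact ⟨_, g.2.1, 2, by omega, g.2.2, by omega⟩
    · exact ⟨_, g.2.1, 3, by omega, g.2.2, by omega⟩
    · exact ⟨_, g.2.1, 4, by omega, g.2.2, by omega⟩
  obtain ⟨t, t1, t2, t3⟩ := fill_spec _ _ _ k
  have sub : ∀ n, t.testBit n = true → B.testBit n = true := fun n g => by
    rw [← t1, Nat.testBit_and, Bool.and_eq_true] at g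
    exact g.2
  obtain ⟨n, hn⟩ := Nat.exists_testBit_of_ne_zero t2
  obtain ⟨i, _, j, _, hp, rfl⟩ := b2 n (sub n hn)
  refine t3 (Nat.eq_of_testBit_eq fun n => Bool.eq_iff_iff.2 ⟨sub n, fun g => ?_⟩)
  obtain ⟨i', _, j', _, hq, rfl⟩ := b2 n g
  have := closed h (fun p => t.testBit (6 * (p.2 - y).toNat + (p.1 - x).toNat) = true)
    (fun u hu v hv g f => by
      obtain ⟨a, a1, b, a2, rfl⟩ := m u hu
      obtain ⟨c, c1, d, c2, rfl⟩ := m v hv
      simp only [add_sub_cancel_left, Int.toNat_natCast] at f ⊢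
      rw [← t1, Nat.testBit_and, b1 c c1 d c2 hv, Bool.and_true]
      simp only [nb, Nat.testBit_or, Nat.testBit_shiftLeft, Nat.testBit_shiftRight,
        Bool.or_eq_true, Bool.and_eq_true, decide_eq_true_eq]
      simp only [adj_iff] at g
      rcases g with ⟨g, e | e⟩ | ⟨g, e | e⟩
      · exact .inl (.inl (.inl (.inr ⟨by omega, by rw [← f]; congr 1; omega⟩)))
      · exact .inl (.inl (.inr (by rw [← f]; congr 1; omega)))
      · exact .inl (.inr ⟨by omega, by rw [← f]; congr 1; omega⟩)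
      · exact .inr (by rw [← f]; congr 1; omega)) hp hq (by simpa using hn)
  simpa using this

def L : List (ℤ × ℤ) := [(0, 0), (1, 0), (1, 1), (1, 2), (2, 2), (0, 2), (2, 3), (0, 3), (3, 3), (0, 4), (4, 3),
  (3, 4), (1, 4), (0, 5), (4, 2), (3, 5), (4, 1), (4, 5), (2, 5), (3, 1), (3, 0)]

theorem result : IsLeast {n | ∃ P : Finset (ℤ × ℤ), IsPoly P ∧ PropS P ∧ P.card = n} 21 := by
  refine ⟨⟨L.toFinset, ⟨⟨(0, 0), by decide⟩, ?_⟩, fun p hp => ?_, by decide +kernel⟩, ?_⟩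
  · have sy : ∀ p ∈ L.toFinset, ∀ q, Relation.ReflTransGen
        (fun a b => b ∈ L.toFinset ∧ adj a b) p q → q ∈ L.toFinset ∧ Relation.ReflTransGen
        (fun a b => b ∈ L.toFinset ∧ adj a b) q p := by
      intro p hp q g
      induction g with
      | refl => exact ⟨hp, .refl⟩
      | tail _ g ih => exact ⟨g.1, .head ⟨ih.1, by have := g.2; rw [adj_iff] at *; omega⟩ ih.2⟩
    have z : ∀ n, ∀ i : Fin 21, i.1 = n → Relation.ReflTransGen
        (fun a b => b ∈ L.toFinset ∧ adj a b) (0, 0) (L.getD i 0) := by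
      intro n
      induction n using Nat.strong_induction_on with
      | _ n ih =>
      intro i e
      have : ∀ i : Fin 21, L.getD i 0 = (0, 0) ∨ ∃ j < i, L.getD i 0 ∈ L.toFinset ∧
        adj (L.getD j 0) (L.getD i 0) := by unfold adj; decide +kernel
      rcases this i with g | ⟨j, hj, g⟩
      · rw [g]
      · exact (ih j (e ▸ hj) j rfl).tail g
    have w : ∀ p ∈ L.toFinset, ∃ i : Fin 21, L.getD i 0 = p := by decide +kernel
    intro p hp q hq
    obtain ⟨i, rfl⟩ := w p hp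
    obtain ⟨j, rfl⟩ := w q hq
    exact (sy _ (by decide) _ (z _ i rfl)).2.trans (z _ j rfl)
  · have : ∀ p ∈ L.toFinset, (∃ a ∈ Ico (0 : ℤ) 5, ∃ c ∈ Ico (0 : ℤ) 5, ∃ b ∈ Ico (0 : ℤ) 5,
        a < c ∧ c < b ∧ (a, p.2) ∈ L.toFinset ∧ (c, p.2) ∉ L.toFinset ∧ (b, p.2) ∈ L.toFinset) ∧
        ∃ a ∈ Ico (0 : ℤ) 6, ∃ c ∈ Ico (0 : ℤ) 6, ∃ b ∈ Ico (0 : ℤ) 6,
        a < c ∧ c < b ∧ (p.1, a) ∈ L.toFinset ∧ (p.1, c) ∉ L.toFinset ∧ (p.1, b) ∈ L.toFinset := by
      decide +kernel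
    obtain ⟨⟨a, _, c, _, b, _, g⟩, a', _, c', _, b', _, g'⟩ := this p hp
    exact ⟨gap.2 ⟨a, c, b, g⟩, gap.2 ⟨a', c', b', g'⟩⟩
  · rintro n ⟨P, h, s, rfl⟩
    obtain ⟨h', s'⟩ := swap h s
    have i1 : (P.image Prod.swap).image Prod.fst = P.image Prod.snd := image_image
    have w1 := wide h s
    have w2 := wide h' s'
    have e1 := ends s
    have e2 := ends s'
    have e3 := edges h
    obtain ⟨x, hx⟩ := box h
    obtain ⟨y, hy⟩ := box h'
    rw [filter_image, card_image_of_injective _ Prod.swap_injective,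
      card_image_of_injective _ Prod.swap_injective] at e2
    have : (P.filter fun p => (p.swap.1, p.swap.2 + 1) ∈ P.image Prod.swap) =
        P.filter fun p => (p.1 + 1, p.2) ∈ P :=
      filter_congr fun p _ => Prod.swap_injective.mem_finset_image (a := (p.1 + 1, p.2))
    rw [this] at e2
    rw [i1] at *
    by_contra! c
    refine five h s x y (hx.trans ?_) (hy.trans ?_) <;> congr 2 <;> omega

end Pool.Agent.Results.MP_ae2f9f_co.Full
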